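import Pool.Agent.W371.RP.GP

/-!
# Comparison of expected face numbers
-/

set_option autoImplicit false

open MeasureTheory Set Filter Topology
open scoped ENNReal

namespace Pool.Agent.W371.RP

open Pool.Agent.W712.RP

theorem count_eq {E : Type} [NormedAddCommGroup E] [NormedSpace ℝ E] {n : ℕ} (s : ℕ)
    (x : Fin n → E) :
    ((Set.ncard {I : Finset (Fin n) | I.card = s ∧ FaceSet x I} : ℕ) : ℝ≥0∞) =
      ∑ I ∈ Finset.powersetCard s (Finset.univ : Finset (Fin n)),
        ({x : Fin n → E | FaceSet x I} : Set (Fin n → E)).indicator (fun _ => (1 : ℝ≥0∞)) x := by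
  classical
  have h1 : {I : Finset (Fin n) | I.card = s ∧ FaceSet x I} =
      (((Finset.powersetCard s (Finset.univ : Finset (Fin n))).filter
        (fun I => FaceSet x I) : Finset (Finset (Fin n))) : Set (Finset (Fin n))) := by
    ext I
    simp [Finset.mem_powersetCard]
  rw [h1, Set.ncard_coe_finset, Finset.card_filter, Nat.cast_sum]
  apply Finset.sum_congr rfl
  intro I _
  by_cases hI : FaceSet x I
  · simp [hI]
  · simp [hI]

theorem int_count {E : Type} [NormedAddCommGroup E] [NormedSpace ℝ E] [FiniteDimensional ℝ E]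
    [MeasurableSpace E] [BorelSpace E] (hMF : S_MF) (μ : Measure E) (L : Set E) (n s : ℕ) :
    ∫⁻ x, ((Set.ncard {I : Finset (Fin n) | I.card = s ∧ FaceSet x I} : ℕ) : ℝ≥0∞)
      ∂(Measure.pi fun _ : Fin n => unif μ L) =
      ∑ I ∈ Finset.powersetCard s (Finset.univ : Finset (Fin n)), faceP μ L n I := by
  simp_rw [count_eq]
  rw [lintegral_finsetSum _ (fun I _ => measurable_const.indicator (hMF E n I))]
  apply Finset.sum_congr rfl
  intro I _
  rw [lintegral_indicator_const (hMF E n I), one_mul]
  rfl

theorem efb : S_GP → S_FS → S_FE → S_CNT → S_MF → S_EFB := by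
  intro hGP hFS hFE hCNT hMF E _ _ _ _ _ μ _ L hL n hn j hj
  have hgp := hGP E μ L hL (by omega) n
  have key : ∀ x : Fin n → E, GenPos x →
      Set.ncard {I : Finset (Fin n) | I.card = 1 ∧ FaceSet x I} ≤
        (j + 1) * Set.ncard {I : Finset (Fin n) | I.card = j + 1 ∧ FaceSet x I} ∧
      Set.ncard {I : Finset (Fin n) | I.card = j + 1 ∧ FaceSet x I} ≤
        (Module.finrank ℝ E).choose (j + 1) *
          Set.ncard {I : Finset (Fin n) | I.card = Module.finrank ℝ E ∧ FaceSet x I} := by
    intro x hx
    exact hCNT n (Module.finrank ℝ E) (fun I => FaceSet x I)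
      (fun I J hI hF hJI hJ => hFS E n x hx I J hI hF hJI hJ)
      (fun I hI hc hF => hFE E n x hx hn I hI hc hF) j hj
  have hm : ∀ s : ℕ, Measurable fun x : Fin n → E =>
      ((Set.ncard {I : Finset (Fin n) | I.card = s ∧ FaceSet x I} : ℕ) : ℝ≥0∞) := by
    intro s
    simp_rw [count_eq]
    exact Finset.measurable_sum _ fun I _ => measurable_const.indicator (hMF E n I)
  constructor
  · rw [← int_count hMF μ L n 1, ← int_count hMF μ L n (j + 1),
      ← lintegral_const_mul _ (hm (j + 1))]
    apply lintegral_mono_ae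
    filter_upwards [hgp] with x hx
    exact_mod_cast (key x hx).1
  · rw [← int_count hMF μ L n (Module.finrank ℝ E), ← int_count hMF μ L n (j + 1),
      ← lintegral_const_mul _ (hm (Module.finrank ℝ E))]
    apply lintegral_mono_ae
    filter_upwards [hgp] with x hx
    exact_mod_cast (key x hx).2

end Pool.Agent.W371.RP
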