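import Pool.Agent.W712.RP.Stm

/-!
# Faces of the convex hull of points in general position
-/

set_option autoImplicit false

open MeasureTheory Set Filter Topology
open scoped ENNReal

namespace Pool.Agent.W371.RP

open Pool.Agent.W712.RP

theorem vx : S_VX := by
  intro E _ _ _ n x i
  constructor
  · rintro ⟨l, c, h1, h2⟩ hmem
    have hi : l (x i) = c := h1 i (Finset.mem_singleton_self i)
    have hsub : convexHull ℝ (Set.range fun j : Fin n => x (i.succAbove j)) ⊆ {y | l y < c} := by
      apply convexHull_min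
      · rintro _ ⟨j, rfl⟩
        exact h2 _ (by simp [Fin.succAbove_ne])
      · exact convex_halfSpace_lt l.toLinearMap.isLinear c
    have h3 : l (x i) < c := hsub hmem
    linarith
  · intro hn
    have hfin : (Set.range fun j : Fin n => x (i.succAbove j)).Finite := Set.finite_range _
    obtain ⟨l, u, h1, h2⟩ := geometric_hahn_banach_closed_point (convex_convexHull ℝ _)
      (hfin.isCompact_convexHull ℝ).isClosed hn
    refine ⟨l, l (x i), ?_, ?_⟩
    · intro k hk
      rw [Finset.mem_singleton] at hk
      rw [hk]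
    · intro k hk
      rw [Finset.mem_singleton] at hk
      obtain ⟨j, rfl⟩ := Fin.exists_succAbove_eq hk
      exact (h1 _ (subset_convexHull ℝ _ ⟨j, rfl⟩)).trans h2

/-- An affine functional with prescribed values on affinely independent points. -/
theorem exists_functional {E : Type} [NormedAddCommGroup E] [NormedSpace ℝ E]
    [FiniteDimensional ℝ E] {ι : Type} (p : ι → E) (hp : AffineIndependent ℝ p) (a : ι → ℝ) :
    ∃ (f : E →L[ℝ] ℝ) (b : ℝ), ∀ i, f (p i) + b = a i := by
  rcases isEmpty_or_nonempty ι with h | ⟨⟨i0⟩⟩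
  · exact ⟨0, 0, fun i => h.elim i⟩
  · have hl := (affineIndependent_iff_linearIndependent_vsub ℝ p i0).1 hp
    obtain ⟨g, hg⟩ := LinearMap.exists_extend
      ((Module.Basis.span hl).constr ℝ (fun i : {x // x ≠ i0} => a i - a i0))
    have hg2 : ∀ i : {x // x ≠ i0}, g (p i - p i0) = a i - a i0 := by
      intro i
      have h1 := (Module.Basis.span hl).constr_basis ℝ (fun i : {x // x ≠ i0} => a i - a i0) i
      rw [← hg] at h1
      have h2 : (((Module.Basis.span hl) i : _) : E) = p i -ᵥ p i0 :=
        congrArg Subtype.val (Module.Basis.span_apply hl i)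
      rw [← h1]
      simp only [LinearMap.comp_apply, Submodule.subtype_apply]
      rw [h2, vsub_eq_sub]
    refine ⟨LinearMap.toContinuousLinearMap g, a i0 - g (p i0), ?_⟩
    intro i
    by_cases hi : i = i0
    · subst hi
      simp
    · have h3 := hg2 ⟨i, hi⟩
      simp only [map_sub] at h3
      simp only [LinearMap.coe_toContinuousLinearMap']
      linarith

theorem fs : S_FS := by
  intro E _ _ _ n x hx I J hI hF hJI _
  obtain ⟨l, c, h1, h2⟩ := hF
  have hind := hx I (by omega)
  classical
  obtain ⟨f, b, hfb⟩ := exists_functional _ hind (fun i : I => if (i : Fin n) ∈ J then (0 : ℝ) else -1)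
  have hev : ∀ᶠ ε : ℝ in 𝓝[>] 0, ∀ k : Fin n, k ∉ I → ε * (f (x k) + b) < c - l (x k) := by
    rw [Filter.eventually_all]
    intro k
    by_cases hk : k ∈ I
    · exact Eventually.of_forall fun ε h => absurd hk h
    · have ht : Tendsto (fun ε : ℝ => ε * (f (x k) + b)) (𝓝[>] 0) (𝓝 (0 * (f (x k) + b))) := by
        apply Tendsto.mono_left _ nhdsWithin_le_nhds
        exact (continuous_id.mul continuous_const).tendsto 0
      rw [zero_mul] at ht
      have := ht.eventually_lt_const (show (0 : ℝ) < c - l (x k) by linarith [h2 k hk])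
      filter_upwards [this] with ε hε _ using hε
  obtain ⟨ε, hε, hε0⟩ := (hev.and self_mem_nhdsWithin).exists
  have hε0' : 0 < ε := hε0
  refine ⟨l + ε • f, c - ε * b, ?_, ?_⟩
  · intro i hi
    have h3 := hfb ⟨i, hJI hi⟩
    simp only [hi, if_true] at h3
    have h4 := h1 i (hJI hi)
    simp only [add_apply, smul_apply, smul_eq_mul]
    have h5 : f (x i) = -b := by linarith
    rw [h4, h5]
    ring
  · intro k hk
    simp only [add_apply, smul_apply, smul_eq_mul]
    by_cases hkI : k ∈ I
    · have h3 := hfb ⟨k, hkI⟩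
      simp only [hk, if_false] at h3
      have h4 := h1 k hkI
      have h5 : f (x k) = -1 - b := by linarith
      rw [h4, h5]
      nlinarith
    · have h3 := hε k hkI
      nlinarith

/-- A functional which is constant on `dim + 1` affinely independent points is constant. -/
theorem const_of_card {E : Type} [NormedAddCommGroup E] [NormedSpace ℝ E]
    [FiniteDimensional ℝ E] {n : ℕ} {x : Fin n → E} (hx : GenPos x) (f : E →L[ℝ] ℝ) (c : ℝ)
    (S : Finset (Fin n)) (hS : Module.finrank ℝ E + 1 ≤ S.card) (hc : ∀ i ∈ S, f (x i) = c)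
    (y : E) : f y = c := by
  obtain ⟨S', hS', hcard⟩ := Finset.exists_subset_card_eq hS
  have hind := hx S' hcard.le
  have htop := (hind.affineSpan_eq_top_iff_card_eq_finrank_add_one).2
    (by rw [Fintype.card_coe]; exact hcard)
  have hy : y ∈ affineSpan ℝ (Set.range fun i : S' => x i) := by
    rw [htop]
    exact AffineSubspace.mem_top ℝ E y
  obtain ⟨w, hw, hyw⟩ := eq_affineCombination_of_mem_affineSpan_of_fintype hy
  rw [Finset.affineCombination_eq_linear_combination _ _ _ hw] at hyw
  rw [hyw, map_sum]
  have : ∀ i ∈ (Finset.univ : Finset S'), f (w i • x i) = w i * c := by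
    intro i _
    rw [map_smul, smul_eq_mul, hc i (hS' i.2)]
  rw [Finset.sum_congr rfl this, ← Finset.sum_mul, hw, one_mul]

theorem fe : S_FS → S_FE := by
  intro hFS E _ _ _ n x hx hn I hIne hI hF
  classical
  obtain ⟨l, c, h1, h2⟩ := hF
  obtain ⟨S, hIS, hScard⟩ := Finset.exists_superset_card_eq (s := I)
    (n := Module.finrank ℝ E + 1) (by omega) (by simpa using hn)
  have hdiff : 2 ≤ (S \ I).card := by
    rw [Finset.card_sdiff_of_subset hIS]
    omega
  obtain ⟨k1, hk1, k2, hk2, hne⟩ := Finset.one_lt_card.1 (show 1 < (S \ I).card by omega)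
  rw [Finset.mem_sdiff] at hk1 hk2
  obtain ⟨f, b, hfb⟩ := exists_functional _ (hx S hScard.le)
    (fun i : S => if (i : Fin n) = k1 then (1 : ℝ) else 0)
  have hfI : ∀ i ∈ I, f (x i) + b = 0 := by
    intro i hi
    have h3 := hfb ⟨i, hIS hi⟩
    have h4 : i ≠ k1 := fun h => hk1.2 (h ▸ hi)
    simpa [h4] using h3
  have hf1 : f (x k1) + b = 1 := by simpa using hfb ⟨k1, hk1.1⟩
  have hf2 : f (x k2) + b = 0 := by
    have h3 := hfb ⟨k2, hk2.1⟩
    simpa [hne.symm] using h3
  -- the minimum
  set A : Finset (Fin n) := Finset.univ.filter fun k => 0 < f (x k) + b with hA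
  have hAne : A.Nonempty := ⟨k1, by simp [hA, hf1]⟩
  obtain ⟨m, hmA, hm⟩ := A.exists_min_image (fun k => (c - l (x k)) / (f (x k) + b)) hAne
  have hmpos : 0 < f (x m) + b := by simpa [hA] using hmA
  have hmI : m ∉ I := fun h => by rw [hfI m h] at hmpos; exact lt_irrefl _ hmpos
  set t : ℝ := (c - l (x m)) / (f (x m) + b) with ht
  have htpos : 0 < t := div_pos (by linarith [h2 m hmI]) hmpos
  set L : E →L[ℝ] ℝ := l + t • f with hL
  set C : ℝ := c - t * b with hC
  have hLx : ∀ k, L (x k) - C = (l (x k) - c) + t * (f (x k) + b) := by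
    intro k
    simp only [hL, hC, add_apply, smul_apply, smul_eq_mul]
    ring
  have hle : ∀ k, L (x k) ≤ C := by
    intro k
    rw [← sub_nonpos, hLx k]
    by_cases hkA : 0 < f (x k) + b
    · have h3 := hm k (by simp [hA, hkA])
      rw [le_div_iff₀ hkA] at h3
      linarith
    · push Not at hkA
      have h4 : l (x k) ≤ c := by
        by_cases hk : k ∈ I
        · exact (h1 k hk).le
        · exact (h2 k hk).le
      nlinarith
  have hLI : ∀ i ∈ I, L (x i) = C := by
    intro i hi
    rw [← sub_eq_zero, hLx i, hfI i hi, h1 i hi]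
    ring
  have hLm : L (x m) = C := by
    rw [← sub_eq_zero, hLx m, ht, div_mul_cancel₀ _ hmpos.ne']
    ring
  have hL2 : L (x k2) < C := by
    rw [← sub_neg, hLx k2, hf2]
    have := h2 k2 hk2.2
    linarith
  set Is : Finset (Fin n) := Finset.univ.filter fun k => L (x k) = C with hIs
  have hIscard : Is.card ≤ Module.finrank ℝ E := by
    by_contra hcon
    push Not at hcon
    have h5 := const_of_card hx L C Is hcon (fun i hi => by simpa [hIs] using hi) (x k2)
    linarith
  have hIsF : FaceSet x Is := by
    refine ⟨L, C, fun i hi => by simpa [hIs] using hi, fun k hk => ?_⟩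
    have : L (x k) ≠ C := by simpa [hIs] using hk
    exact lt_of_le_of_ne (hle k) this
  refine ⟨m, hmI, hFS E n x hx Is (insert m I) hIscard hIsF ?_ (Finset.insert_nonempty m I)⟩
  intro i hi
  rw [Finset.mem_insert] at hi
  rcases hi with rfl | hi
  · simp [hIs, hLm]
  · simp [hIs, hLI i hi]

/-- The points of the convex hull with maximal value of a functional. -/
theorem max_eq {E : Type} [NormedAddCommGroup E] [NormedSpace ℝ E] {n : ℕ} (x : Fin n → E)
    (l : E →L[ℝ] ℝ) (M : ℝ) (hle : ∀ k, l (x k) ≤ M) (k0 : Fin n) (hk0 : l (x k0) = M)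
    (I : Finset (Fin n)) (hI : ∀ k, k ∈ I ↔ l (x k) = M) :
    {y ∈ convexHull ℝ (Set.range x) | ∀ z ∈ convexHull ℝ (Set.range x), l z ≤ l y} =
      convexHull ℝ (x '' I) := by
  have hall : convexHull ℝ (Set.range x) ⊆ {y | l y ≤ M} := by
    apply convexHull_min
    · rintro _ ⟨k, rfl⟩
      exact hle k
    · exact convex_halfSpace_le l.toLinearMap.isLinear M
  have hall2 : convexHull ℝ (Set.range x) ⊆
      {y | l y ≤ M ∧ (l y = M → y ∈ convexHull ℝ (x '' I))} := by
    apply convexHull_min
    · rintro _ ⟨k, rfl⟩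
      refine ⟨hle k, fun h => subset_convexHull ℝ _ ⟨k, (hI k).2 h, rfl⟩⟩
    · rintro y ⟨hy1, hy2⟩ z ⟨hz1, hz2⟩ a b ha hb hab
      have e1 : l (a • y + b • z) = a * l y + b * l z := by simp
      refine ⟨?_, ?_⟩
      · rw [e1]
        have : a * M + b * M = M := by rw [← add_mul, hab, one_mul]
        nlinarith
      · intro he
        rw [e1] at he
        have e2 : a * (M - l y) + b * (M - l z) = 0 := by
          have : a * M + b * M = M := by rw [← add_mul, hab, one_mul]
          linarith
        have p1 : 0 ≤ a * (M - l y) := mul_nonneg ha (by linarith)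
        have p2 : 0 ≤ b * (M - l z) := mul_nonneg hb (by linarith)
        have q1 : a * (M - l y) = 0 := by linarith
        have q2 : b * (M - l z) = 0 := by linarith
        rcases mul_eq_zero.1 q1 with ha0 | hy0
        · have hb1 : b = 1 := by linarith
          subst ha0
          subst hb1
          rw [zero_smul, one_smul, zero_add]
          exact hz2 (by linarith)
        · rcases mul_eq_zero.1 q2 with hb0 | hz0
          · have ha1 : a = 1 := by linarith
            subst hb0
            subst ha1
            rw [zero_smul, one_smul, add_zero]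
            exact hy2 (by linarith)
          · exact convex_convexHull ℝ _ (hy2 (by linarith)) (hz2 (by linarith)) ha hb hab
  have hI2 : convexHull ℝ (x '' I) ⊆ {y | l y = M} := by
    apply convexHull_min
    · rintro _ ⟨k, hk, rfl⟩
      exact (hI k).1 hk
    · exact convex_hyperplane l.toLinearMap.isLinear M
  ext y
  constructor
  · rintro ⟨hy, hmax⟩
    have h3 : l (x k0) ≤ l y := hmax _ (subset_convexHull ℝ _ ⟨k0, rfl⟩)
    have h4 : l y ≤ M := hall hy
    exact (hall2 hy).2 (by linarith)
  · intro hy
    refine ⟨convexHull_mono (Set.image_subset_range _ _) hy, ?_⟩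
    intro z hz
    have h5 : l y = M := hI2 hy
    rw [h5]
    exact hall hz

theorem finrank_face {E : Type} [NormedAddCommGroup E] [NormedSpace ℝ E] [FiniteDimensional ℝ E]
    {n : ℕ} {x : Fin n → E} (hx : GenPos x) (I : Finset (Fin n)) (m : ℕ) (hI : I.card = m + 1)
    (hm : m ≤ Module.finrank ℝ E) :
    Module.finrank ℝ (vectorSpan ℝ (x '' I)) = m := by
  have h := (hx I (by omega)).finrank_vectorSpan (n := m) (by rw [Fintype.card_coe]; exact hI)
  have he : Set.range (fun i : I => x i) = x '' I := by
    ext y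
    simp
  rwa [he] at h

theorem vectorSpan_hull {E : Type} [NormedAddCommGroup E] [NormedSpace ℝ E] (s : Set E) :
    vectorSpan ℝ (convexHull ℝ s) = vectorSpan ℝ s := by
  rw [← direction_affineSpan, affineSpan_convexHull, direction_affineSpan]

theorem fc : S_FC := by
  intro E _ _ _ n x hx hn j hj
  classical
  unfold faceNum
  have key : {F : Set E | IsExposed ℝ (convexHull ℝ (Set.range x)) F ∧ F.Nonempty ∧
      Module.finrank ℝ (vectorSpan ℝ F) = j} =
      (fun I : Finset (Fin n) => convexHull ℝ (x '' I)) ''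
        {I : Finset (Fin n) | I.card = j + 1 ∧ FaceSet x I} := by
    ext F
    constructor
    · rintro ⟨hexp, hne, hfr⟩
      obtain ⟨l, hl⟩ := hexp hne
      have hun : (Finset.univ : Finset (Fin n)).Nonempty := by
        rw [← Finset.card_pos, Finset.card_univ, Fintype.card_fin]
        omega
      obtain ⟨k0, -, hk0⟩ := Finset.univ.exists_max_image (fun k => l (x k)) hun
      set I : Finset (Fin n) := Finset.univ.filter fun k => l (x k) = l (x k0) with hIdef
      have hI : ∀ k, k ∈ I ↔ l (x k) = l (x k0) := fun k => by simp [hIdef]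
      have hFI := max_eq x l (l (x k0)) (fun k => hk0 k (Finset.mem_univ k)) k0 rfl I hI
      rw [← hl] at hFI
      have hIne : I.Nonempty := ⟨k0, (hI k0).2 rfl⟩
      have hcard : I.card = j + 1 := by
        rw [hFI, vectorSpan_hull] at hfr
        by_cases hc : I.card ≤ Module.finrank ℝ E + 1
        · obtain ⟨m, hm⟩ : ∃ m, I.card = m + 1 :=
            ⟨I.card - 1, by have := hIne.card_pos; omega⟩
          rw [finrank_face hx I m hm (by omega)] at hfr
          omega
        · exfalso
          obtain ⟨S, hS, hScard⟩ := Finset.exists_subset_card_eq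
            (show Module.finrank ℝ E + 1 ≤ I.card by omega)
          have h3 := finrank_face hx S _ hScard le_rfl
          have h4 : Module.finrank ℝ (vectorSpan ℝ (x '' S)) ≤
              Module.finrank ℝ (vectorSpan ℝ (x '' I)) :=
            Submodule.finrank_mono (vectorSpan_mono ℝ (Set.image_mono (by exact_mod_cast hS)))
          omega
      refine ⟨I, ⟨hcard, l, l (x k0), fun i hi => (hI i).1 hi, fun k hk => ?_⟩, hFI.symm⟩
      exact lt_of_le_of_ne (hk0 k (Finset.mem_univ k)) (fun h => hk ((hI k).2 h))
    · rintro ⟨I, ⟨hcard, l, c, h1, h2⟩, rfl⟩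
      have hIne : I.Nonempty := Finset.card_pos.1 (by omega)
      obtain ⟨k0, hk0⟩ := hIne
      have hFI := max_eq x l c
        (fun k => by
          by_cases hk : k ∈ I
          · exact (h1 k hk).le
          · exact (h2 k hk).le) k0 (h1 k0 hk0) I
        (fun k => ⟨fun hk => h1 k hk, fun hk => by
          by_contra hkI
          exact (h2 k hkI).ne hk⟩)
      refine ⟨?_, ?_, ?_⟩
      · intro _
        exact ⟨l, hFI.symm⟩
      · exact ⟨x k0, subset_convexHull ℝ _ ⟨k0, hk0, rfl⟩⟩
      · change Module.finrank ℝ (vectorSpan ℝ (convexHull ℝ (x '' I))) = j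
        rw [vectorSpan_hull, finrank_face hx I j hcard hj.le]
  rw [key]
  apply Set.InjOn.ncard_image
  have hsub : ∀ I1 I2 : Finset (Fin n), FaceSet x I2 →
      convexHull ℝ (x '' I1) = convexHull ℝ (x '' I2) → I1 ⊆ I2 := by
    rintro I1 I2 ⟨l, c, h1, h2⟩ he k hk
    by_contra hk2
    have h3 : x k ∈ convexHull ℝ (x '' I2) := by
      rw [← he]
      exact subset_convexHull ℝ _ ⟨k, hk, rfl⟩
    have h4 : convexHull ℝ (x '' I2) ⊆ {y | l y = c} := by
      apply convexHull_min
      · rintro _ ⟨i, hi, rfl⟩
        exact h1 i hi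
      · exact convex_hyperplane l.toLinearMap.isLinear c
    have h5 : l (x k) = c := h4 h3
    exact (h2 k hk2).ne h5
  intro I1 hI1 I2 hI2 he
  exact Finset.Subset.antisymm (hsub I1 I2 hI2.2 he) (hsub I2 I1 hI1.2 he.symm)

end Pool.Agent.W371.RP
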