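import Pool.Agent.W712.RP.Stm

/-!
# General position almost surely
-/

set_option autoImplicit false

open MeasureTheory Set Filter Topology
open scoped ENNReal

namespace Pool.Agent.W371.RP

open Pool.Agent.W712.RP

theorem indep_insert {E : Type} [NormedAddCommGroup E] [NormedSpace ℝ E] {n : ℕ} {x : Fin n → E}
    {J : Finset (Fin n)} {k : Fin n} (hk : k ∉ J)
    (h : AffineIndependent ℝ (fun i : J => x i)) (hx : x k ∉ affineSpan ℝ (x '' J)) :
    AffineIndependent ℝ (fun i : (insert k J : Finset (Fin n)) => x i) := by
  have hmem : ∀ y : {y : (insert k J : Finset (Fin n)) // y ≠ ⟨k, Finset.mem_insert_self k J⟩},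
      (y.1.1 : Fin n) ∈ J := by
    rintro ⟨⟨y, hy⟩, hne⟩
    rcases Finset.mem_insert.1 hy with rfl | hy
    · exact absurd rfl hne
    · exact hy
  apply AffineIndependent.affineIndependent_of_notMem_span
    (i := (⟨k, Finset.mem_insert_self k J⟩ : (insert k J : Finset (Fin n))))
  · exact h.comp_embedding
      (f := ⟨fun y => ⟨y.1.1, hmem y⟩, fun y z hyz => by
        apply Subtype.ext
        apply Subtype.ext
        have h3 := congrArg Subtype.val hyz
        exact h3⟩)
  · intro hcon
    apply hx
    refine affineSpan_mono ℝ ?_ hcon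
    rintro _ ⟨y, hy, rfl⟩
    exact ⟨y.1, hmem ⟨y, hy⟩, rfl⟩

theorem isOpen_indep {E : Type} [NormedAddCommGroup E] [NormedSpace ℝ E]
    {n : ℕ} (J : Finset (Fin n)) :
    IsOpen {x : Fin n → E | AffineIndependent ℝ (fun i : J => x i)} := by
  rcases J.eq_empty_or_nonempty with rfl | ⟨j, hj⟩
  · convert isOpen_univ
    ext x
    simp only [mem_ofPred_eq, mem_univ, iff_true]
    exact affineIndependent_of_subsingleton ℝ _
  · have he : {x : Fin n → E | AffineIndependent ℝ (fun i : J => x i)} =
        (fun x : Fin n → E => fun i : {i : J // i ≠ ⟨j, hj⟩} => x i.1.1 - x j) ⁻¹'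
          {f | LinearIndependent ℝ f} := by
      ext x
      exact affineIndependent_iff_linearIndependent_vsub ℝ (fun i : J => x i) ⟨j, hj⟩
    rw [he]
    apply isOpen_setOfPred_linearIndependent.preimage
    fun_prop

theorem unif_ac {E : Type} [MeasurableSpace E] (μ : Measure E) (L : Set E) : unif μ L ≪ μ := by
  unfold unif
  exact (Measure.smul_absolutelyContinuous).trans Measure.restrict_le_self.absolutelyContinuous

theorem unif_prob {E : Type} [NormedAddCommGroup E] [NormedSpace ℝ E]
    [MeasurableSpace E] [BorelSpace E] (μ : Measure E) [μ.IsAddHaarMeasure] (L : Set E)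
    (hL : Body L) : IsProbabilityMeasure (unif μ L) := by
  have h0 : μ L ≠ 0 := by
    intro h
    have h1 : μ (interior L) = 0 := measure_mono_null interior_subset h
    exact (isOpen_interior.measure_pos μ hL.interior_nonempty).ne' h1
  have h1 : μ L ≠ ∞ := hL.compact.measure_ne_top
  constructor
  unfold unif
  rw [Measure.smul_apply, Measure.restrict_apply MeasurableSet.univ, univ_inter, smul_eq_mul]
  exact ENNReal.inv_mul_cancel h0 h1

theorem span_ne_top {E : Type} [NormedAddCommGroup E] [NormedSpace ℝ E] [FiniteDimensional ℝ E]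
    (hd : 1 ≤ Module.finrank ℝ E) {n : ℕ} (x : Fin n → E) (J : Finset (Fin n))
    (hJ : J.card ≤ Module.finrank ℝ E) : affineSpan ℝ (x '' J) ≠ ⊤ := by
  classical
  intro htop
  rcases J.eq_empty_or_nonempty with rfl | hne
  · simp only [Finset.coe_empty, image_empty, AffineSubspace.span_empty] at htop
    exact AffineSubspace.bot_ne_top ℝ E E htop
  · have h1 : (affineSpan ℝ (x '' J)).direction = ⊤ := by rw [htop, AffineSubspace.direction_top]
    rw [direction_affineSpan] at h1
    obtain ⟨m, hm⟩ : ∃ m, J.card = m + 1 := ⟨J.card - 1, by have := hne.card_pos; omega⟩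
    have h2 := finrank_vectorSpan_image_finset_le ℝ x J hm
    rw [Finset.coe_image, h1, finrank_top] at h2
    omega

theorem null_one {E : Type} [NormedAddCommGroup E] [NormedSpace ℝ E] [FiniteDimensional ℝ E]
    [MeasurableSpace E] [BorelSpace E] (μ : Measure E) [μ.IsAddHaarMeasure] (L : Set E)
    (hL : Body L) (hd : 1 ≤ Module.finrank ℝ E) {n : ℕ} (J : Finset (Fin n))
    (hJ : J.card ≤ Module.finrank ℝ E) (k : Fin n) (hk : k ∉ J) :
    ∀ᵐ x ∂(Measure.pi fun _ : Fin n => unif μ L), AffineIndependent ℝ (fun i : J => x i) →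
      AffineIndependent ℝ (fun i : (insert k J : Finset (Fin n)) => x i) := by
  classical
  have : IsProbabilityMeasure (unif μ L) := unif_prob μ L hL
  obtain ⟨m, rfl⟩ : ∃ m, n = m + 1 := ⟨n - 1, by have := k.pos; omega⟩
  set B : Set (Fin (m + 1) → E) := {x | AffineIndependent ℝ (fun i : J => x i)} ∩
    {x | AffineIndependent ℝ (fun i : (insert k J : Finset (Fin (m + 1))) => x i)}ᶜ with hB
  have hBm : MeasurableSet B :=
    (isOpen_indep J).measurableSet.inter (isOpen_indep _).measurableSet.compl
  have hnull : (Measure.pi fun _ : Fin (m + 1) => unif μ L) B = 0 := by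
    have hmp := measurePreserving_piFinSuccAbove (fun _ : Fin (m + 1) => unif μ L) k
    have hsym := hmp.symm
    have h1 := hsym.measure_preimage hBm.nullMeasurableSet
    rw [← h1, Measure.prod_apply_symm (hsym.measurable hBm)]
    rw [lintegral_eq_zero_iff (measurable_measure_prodMk_right (hsym.measurable hBm))]
    filter_upwards with z
    apply measure_mono_null (t := (affineSpan ℝ ((fun i => k.insertNth (0 : E) z i) '' J) : Set E))
    · rintro y ⟨hy1, hy2⟩
      by_contra hy3
      apply hy2
      apply indep_insert hk hy1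
      intro hy4
      apply hy3
      have e1 : (MeasurableEquiv.piFinSuccAbove (fun _ : Fin (m + 1) => E) k).symm (y, z) =
          k.insertNth y z := rfl
      rw [e1] at hy4
      rw [Fin.insertNth_apply_same] at hy4
      have e2 : (k.insertNth y z : Fin (m + 1) → E) '' J =
          (fun i => k.insertNth (0 : E) z i) '' J := by
        apply Set.image_congr
        intro i hi
        have hik : i ≠ k := fun h => hk (h ▸ hi)
        obtain ⟨j, rfl⟩ := Fin.exists_succAbove_eq hik
        rw [Fin.insertNth_apply_succAbove, Fin.insertNth_apply_succAbove]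
      rw [e2] at hy4
      exact hy4
    · apply unif_ac μ L
      exact Measure.addHaar_affineSubspace μ _ (span_ne_top hd _ J hJ)
  have := measure_eq_zero_iff_ae_notMem.1 hnull
  filter_upwards [this] with x hx h1
  by_contra h2
  exact hx ⟨h1, h2⟩

theorem gp : S_GP := by
  intro E _ _ _ _ _ μ _ L hL hd n
  classical
  have hall : ∀ᵐ x ∂(Measure.pi fun _ : Fin n => unif μ L), ∀ (J : Finset (Fin n)) (k : Fin n),
      J.card ≤ Module.finrank ℝ E → k ∉ J → AffineIndependent ℝ (fun i : J => x i) →
      AffineIndependent ℝ (fun i : (insert k J : Finset (Fin n)) => x i) := by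
    rw [ae_all_iff]
    intro J
    rw [ae_all_iff]
    intro k
    by_cases hJ : J.card ≤ Module.finrank ℝ E
    · by_cases hk : k ∉ J
      · filter_upwards [null_one μ L hL hd J hJ k hk] with x hx _ _ using hx
      · exact Eventually.of_forall fun x _ h => absurd h hk
    · exact Eventually.of_forall fun x h => absurd h hJ
  filter_upwards [hall] with x hx
  intro J
  induction J using Finset.induction_on with
  | empty =>
    intro _
    exact affineIndependent_of_subsingleton ℝ _
  | insert k J hk ih =>
    intro hc
    rw [Finset.card_insert_of_notMem hk] at hc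
    exact hx J k (by omega) hk (ih (by omega))

end Pool.Agent.W371.RP
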