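import Pool.Agent.W371.RP.GP

/-!
# Lower bound for the vertex probability; the ball is a smooth body
-/

set_option autoImplicit false

open MeasureTheory Set Filter Topology
open scoped ENNReal

namespace Pool.Agent.W371.RP

open Pool.Agent.W712.RP

theorem quarter (n : ℕ) (hn : 2 ≤ n) : (1 : ℝ) / 4 ≤ (1 - 1 / (n : ℝ)) ^ n := by
  have hn' : (2 : ℝ) ≤ n := by exact_mod_cast hn
  have hn0 : (0 : ℝ) < n := by linarith
  have h1 : (1 : ℝ) / n ≤ 1 / 2 := one_div_le_one_div_of_le (by norm_num) hn'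
  have h0 : (0 : ℝ) ≤ 1 - 1 / n := by linarith
  have hb := one_add_mul_self_le_rpow_one_add (s := -(1 / (n : ℝ))) (p := (n : ℝ) / 2)
    (by linarith) (by linarith)
  have e1 : 1 + (n : ℝ) / 2 * -(1 / (n : ℝ)) = 1 / 2 := by
    field_simp
    norm_num
  have e2 : (1 : ℝ) + -(1 / (n : ℝ)) = 1 - 1 / n := by ring
  rw [e1, e2] at hb
  have e3 : (1 - 1 / (n : ℝ)) ^ n = ((1 - 1 / (n : ℝ)) ^ ((n : ℝ) / 2)) ^ 2 := by
    rw [← Real.rpow_natCast (((1 - 1 / (n : ℝ)) ^ ((n : ℝ) / 2))) 2, ← Real.rpow_mul h0,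
      ← Real.rpow_natCast]
    congr 1
    push_cast
    ring
  rw [e3]
  nlinarith

theorem quarter' (n : ℕ) (hn : 2 ≤ n) : (1 : ℝ≥0∞) ≤ 4 * (1 - ENNReal.ofReal (1 / n)) ^ n := by
  have h := quarter n hn
  have hn' : (2 : ℝ) ≤ n := by exact_mod_cast hn
  have hn0 : (0 : ℝ) < n := by linarith
  have h1 : (1 : ℝ) / n ≤ 1 / 2 := one_div_le_one_div_of_le (by norm_num) hn'
  have h0 : (0 : ℝ) ≤ 1 - 1 / n := by linarith
  have e1 : (1 : ℝ≥0∞) - ENNReal.ofReal (1 / n) = ENNReal.ofReal (1 - 1 / n) := by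
    rw [ENNReal.ofReal_sub _ (by positivity), ENNReal.ofReal_one]
  have e2 : (4 : ℝ≥0∞) = ENNReal.ofReal 4 := by norm_num
  rw [e1, ← ENNReal.ofReal_pow h0, e2, ← ENNReal.ofReal_mul (by norm_num), ← ENNReal.ofReal_one]
  apply ENNReal.ofReal_le_ofReal
  linarith

theorem low' : S_LOW := by
  intro E _ _ _ _ _ μ _ L hL n hn A hA hcap
  have hP : IsProbabilityMeasure (unif μ L) := unif_prob μ L hL
  unfold outP
  rw [← lintegral_const_mul' _ _ (by norm_num)]
  rw [← lintegral_indicator_one hA]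
  apply lintegral_mono
  intro z
  by_cases hz : z ∈ A
  · simp only [hz, indicator_of_mem, Pi.one_apply]
    obtain ⟨l, hl⟩ := hcap z hz
    have hsub : (Set.pi Set.univ fun _ : Fin n => {y | l y < l z}) ⊆
        {x : Fin n → E | z ∉ convexHull ℝ (Set.range x)} := by
      intro x hx hmem
      have hsub2 : convexHull ℝ (Set.range x) ⊆ {y | l y < l z} := by
        apply convexHull_min
        · rintro _ ⟨j, rfl⟩
          exact hx j (Set.mem_univ j)
        · exact convex_halfSpace_lt l.toLinearMap.isLinear _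
      exact lt_irrefl _ (show l z < l z from hsub2 hmem)
    have hms : MeasurableSet {y | l z ≤ l y} :=
      measurableSet_le measurable_const l.continuous.measurable
    have h1 : 1 - ENNReal.ofReal (1 / n) ≤ unif μ L {y | l y < l z} := by
      have e1 : {y | l y < l z} = {y | l z ≤ l y}ᶜ := by
        ext y
        simp
      rw [e1, prob_compl_eq_one_sub hms]
      exact tsub_le_tsub_left hl 1
    calc (1 : ℝ≥0∞) ≤ 4 * (1 - ENNReal.ofReal (1 / n)) ^ n := quarter' n hn
      _ ≤ 4 * (unif μ L {y | l y < l z}) ^ n := by gcongr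
      _ = 4 * (Measure.pi fun _ : Fin n => unif μ L)
          (Set.pi Set.univ fun _ : Fin n => {y | l y < l z}) := by
        rw [Measure.pi_pi, Finset.prod_const, Finset.card_univ, Fintype.card_fin]
      _ ≤ _ := by gcongr
  · simp only [hz, not_false_eq_true, indicator_of_notMem]
    exact zero_le

theorem low : S_MH → S_LOW := fun _ => low'

theorem ball : S_BALL := by
  intro k hk
  have hne : Nonempty (Fin k) := ⟨⟨0, by omega⟩⟩
  have hnt : Nontrivial (EuclideanSpace ℝ (Fin k)) := by
    refine ⟨⟨0, EuclideanSpace.single ⟨0, by omega⟩ 1, ?_⟩⟩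
    intro h
    have h2 := congrArg (fun v : EuclideanSpace ℝ (Fin k) => v ⟨0, by omega⟩) h
    simp at h2
  refine ⟨⟨convex_closedBall _ _, isCompact_closedBall _ _, ?_⟩, ?_⟩
  · rw [interior_closedBall _ one_ne_zero]
    exact Metric.nonempty_ball.2 one_pos
  · intro p hp
    rw [frontier_closedBall _ one_ne_zero, mem_sphere_zero_iff_norm] at hp
    refine ⟨p, innerSL ℝ, hp, ?_, ?_, ?_⟩
    · intro y hy
      rw [mem_closedBall_zero_iff] at hy
      rw [inner_sub_left, real_inner_self_eq_norm_sq, hp]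
      have := real_inner_le_norm y p
      rw [hp] at this
      linarith
    · intro w _ hw
      change 0 < inner ℝ w w
      rw [real_inner_self_eq_norm_sq]
      positivity
    · have hev : (fun y => inner ℝ (p - y) p - innerSL ℝ (y - p) (y - p) / 2)
          =ᶠ[𝓝[frontier (Metric.closedBall (0 : EuclideanSpace ℝ (Fin k)) 1)] p]
          (fun _ => (0 : ℝ)) := by
        filter_upwards [self_mem_nhdsWithin] with y hy
        rw [frontier_closedBall _ one_ne_zero, mem_sphere_zero_iff_norm] at hy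
        have e1 : innerSL ℝ (y - p) (y - p) = inner ℝ (y - p) (y - p) := rfl
        rw [e1, real_inner_self_eq_norm_sq, norm_sub_sq_real, hy, hp, inner_sub_left,
          real_inner_self_eq_norm_sq, hp]
        ring
      exact hev.trans_isLittleO (Asymptotics.isLittleO_zero _ _)

end Pool.Agent.W371.RP
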