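import Pool.Agent.W371.RP.GP

/-!
# Products of bodies
-/

set_option autoImplicit false

open MeasureTheory Set Filter Topology
open scoped ENNReal

namespace Pool.Agent.W371.RP

open Pool.Agent.W712.RP

theorem body_pos {E : Type} [NormedAddCommGroup E] [NormedSpace ℝ E]
    [MeasurableSpace E] [BorelSpace E] (μ : Measure E) [μ.IsAddHaarMeasure] (L : Set E)
    (hL : Body L) : μ L ≠ 0 ∧ μ L ≠ ∞ := by
  refine ⟨?_, hL.compact.measure_ne_top⟩
  intro h
  have h1 : μ (interior L) = 0 := measure_mono_null interior_subset h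
  exact (isOpen_interior.measure_pos μ hL.interior_nonempty).ne' h1

theorem body_prod {m : ℕ} {d : Fin m → ℕ} {K : ∀ i, Set (EuclideanSpace ℝ (Fin (d i)))}
    (hK : ∀ i, Body (K i)) : Body (prodBody K) := by
  unfold prodBody
  refine ⟨convex_pi fun i _ => (hK i).convex, isCompact_univ_pi fun i => (hK i).compact, ?_⟩
  rw [interior_pi_set Set.finite_univ]
  exact Set.univ_pi_nonempty_iff.2 fun i => (hK i).interior_nonempty

theorem mac_prod {m : ℕ} {d : Fin m → ℕ} (K : ∀ i, Set (EuclideanSpace ℝ (Fin (d i))))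
    (z : ∀ i, EuclideanSpace ℝ (Fin (d i))) (c : ℝ) :
    Mac (prodBody K) z c = Set.pi Set.univ fun i => Mac (K i) (z i) c := by
  ext y
  simp only [Mac, prodBody, Set.mem_pi, Set.mem_univ, true_implies, Set.mem_ofPred_eq,
    Pi.add_apply, Pi.sub_apply, Pi.smul_apply]
  exact forall_and.symm

theorem unif_prod {m : ℕ} {d : Fin m → ℕ} {K : ∀ i, Set (EuclideanSpace ℝ (Fin (d i)))}
    (hK : ∀ i, Body (K i)) :
    unif volume (prodBody K) = Measure.pi (fun i => unif volume (K i)) := by
  have hP : ∀ i, IsProbabilityMeasure (unif (volume : Measure (EuclideanSpace ℝ (Fin (d i)))) (K i)) :=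
    fun i => unif_prob _ _ (hK i)
  symm
  apply Measure.pi_eq
  intro s hs
  unfold unif
  have hpi : MeasurableSet (Set.pi Set.univ s) := MeasurableSet.univ_pi hs
  rw [Measure.smul_apply, Measure.restrict_apply hpi, smul_eq_mul, volume_pi]
  have e1 : Set.pi Set.univ s ∩ prodBody K = Set.pi Set.univ (fun i => s i ∩ K i) :=
    (Set.pi_inter_distrib).symm
  rw [e1, Measure.pi_pi]
  have e2 : (Measure.pi fun i => (volume : Measure (EuclideanSpace ℝ (Fin (d i))))) (prodBody K) =
      ∏ i, volume (K i) := by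
    unfold prodBody
    rw [Measure.pi_pi]
  rw [e2]
  have e3 : (∏ i, volume (K i))⁻¹ = ∏ i, (volume (K i))⁻¹ := by
    rw [ENNReal.prod_inv_distrib]
    intro i _ j _ _
    exact Or.inl (body_pos volume (K i) (hK i)).1
  rw [e3, ← Finset.prod_mul_distrib]
  apply Finset.prod_congr rfl
  intro i _
  rw [Measure.smul_apply, Measure.restrict_apply (hs i), smul_eq_mul]

theorem pr : S_PR := by
  intro m d K hK
  have hP : ∀ i, IsProbabilityMeasure (unif (volume : Measure (EuclideanSpace ℝ (Fin (d i)))) (K i)) :=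
    fun i => unif_prob _ _ (hK i)
  refine ⟨body_prod hK, ?_, hP, unif_prod hK, ?_⟩
  · rw [Module.finrank_pi_fintype]
    simp
  · intro z
    unfold macP
    rw [unif_prod hK, mac_prod, Measure.pi_pi]

end Pool.Agent.W371.RP
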